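import Pool.Agent.H16.FK.TargetsA

/-!
# Linked tuples are determined by the types
-/

set_option autoImplicit false

namespace Pool.Agent.H26.FK

open Set Pool.Agent.H75.HCI Pool.Agent.H16.FK

section

variable {α : Type}

lemma sel_append_right (l : List α) (w w' : List ℕ) : sel l (w ++ w') = sel l w ++ sel l w' := by
  unfold sel
  rw [List.filterMap_append]

lemma sel_left (l D : List α) (w : List ℕ) (hw : ∀ i ∈ w, i < l.length) :
    sel (l ++ D) w = sel l w := by
  unfold sel
  refine List.filterMap_congr fun i hi => ?_
  exact List.getElem?_append_left (hw i hi)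

lemma sel_shift (l D : List α) (w : List ℕ) : sel (l ++ D) (w.map (· + l.length)) = sel D w := by
  unfold sel
  rw [List.filterMap_map]
  refine List.filterMap_congr fun i _ => ?_
  simp only [Function.comp_apply]
  rw [List.getElem?_append_right (by omega)]
  congr 1
  omega

lemma sel_both (l D : List α) (w : List ℕ) :
    sel (l ++ D) (List.range l.length ++ w.map (· + l.length)) = l ++ sel D w := by
  rw [sel_append_right, sel_shift, sel_left _ _ _ fun i hi => List.mem_range.1 hi, sel_range]

lemma sel_of_forall₂ (D : List α) : ∀ (u : List α) (w : List ℕ),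
    List.Forall₂ (fun (x : α) (j : ℕ) => D[j]? = some x) u w → sel D w = u := by
  intro u w h
  induction h with
  | nil => rfl
  | cons h1 _ ih =>
    unfold sel at ih ⊢
    rw [List.filterMap_cons, h1, ih]

lemma exists_places (D' u' : List α) (hp : u'.Perm D') : ∃ w : List ℕ,
    w.Perm (List.range D'.length) ∧
      List.Forall₂ (fun (x : α) (j : ℕ) => D'[j]? = some x) u' w := by
  have h1 : List.Forall₂ (fun (x : α) (j : ℕ) => D'[j]? = some x) D' (List.range D'.length) := by
    rw [List.forall₂_iff_get]
    refine ⟨by simp, fun i h1 h2 => ?_⟩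
    simp
  obtain ⟨w, hw1, hw2⟩ := List.perm_comp_forall₂ hp h1
  exact ⟨w, hw2, hw1⟩

lemma exists_bound {β : Type} (l : List (ℕ × β)) : ∃ n, ∀ p ∈ l, p.1 < n := by
  induction l with
  | nil => exact ⟨0, by simp⟩
  | cons a l ih =>
    obtain ⟨n, hn⟩ := ih
    refine ⟨max n (a.1 + 1), fun p hp => ?_⟩
    rcases List.mem_cons.1 hp with rfl | hp
    · exact lt_of_lt_of_le (Nat.lt_succ_self _) (le_max_right _ _)
    · exact lt_of_lt_of_le (hn p hp) (le_max_left _ _)

lemma sel_length (D : List α) (w : List ℕ) (hw : ∀ i ∈ w, i < D.length) :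
    (sel D w).length = w.length := by
  rw [sel_eq D w hw]
  simp

end

theorem pf_LKI : T_LKI := by
  intro kx k L T hT
  constructor
  · intro l l' D D' hl hD hTT hLk u' v' hu' hv' hperm hG
    obtain ⟨_, a, i, m, ha1, ha2, ha3, hM, hE⟩ := hG
    obtain ⟨w, hw1, hw2⟩ := exists_places D' (u' ++ v') hperm
    have hwlt : ∀ j ∈ w, j < D'.length := fun j hj => List.mem_range.1 (hw1.mem_iff.1 hj)
    have hwlt2 : ∀ j ∈ w, j < D.length := fun j hj => by rw [hD]; exact hwlt j hj
    -- the places of the two parts
    have hu2 : List.Forall₂ (fun (x : Idx kx k) (j : ℕ) => D'[j]? = some x) u'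
        (w.take u'.length) := by
      have h1 := List.forall₂_take u'.length hw2
      rwa [List.take_left] at h1
    have hv2 : List.Forall₂ (fun (x : Idx kx k) (j : ℕ) => D'[j]? = some x) v'
        (w.drop u'.length) := by
      have h1 := List.forall₂_drop u'.length hw2
      rwa [List.drop_left] at h1
    have hlu := hu2.length_eq
    have hlv := hv2.length_eq
    have hltu : ∀ j ∈ w.take u'.length, j < D.length := fun j hj => hwlt2 j (List.mem_of_mem_take hj)
    have hltv : ∀ j ∈ w.drop u'.length, j < D.length := fun j hj => hwlt2 j (List.mem_of_mem_drop hj)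
    set u := sel D (w.take u'.length) with hu
    set v := sel D (w.drop u'.length) with hv
    have hul : u.length = u'.length := by rw [hu, sel_length D _ hltu, ← hlu]
    have hvl : v.length = v'.length := by rw [hv, sel_length D _ hltv, ← hlv]
    have huv : u ++ v = sel D w := by
      rw [hu, hv, ← sel_append_right, List.take_append_drop]
    have huvD : (u ++ v).Perm D := by
      have h1 : (sel D w).Perm (sel D (List.range D.length)) := by
        unfold sel
        rw [hD]
        exact hw1.filterMap _
      rw [huv]
      rwa [sel_range] at h1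
    have hlen : (l ++ D).length = (l' ++ D').length := by
      rw [List.length_append, List.length_append, hl, hD]
    have e1 : T (l ++ (u ++ v)) = T (l' ++ (u' ++ v')) := by
      have h1 := hT.ft (l ++ D) (l' ++ D') (List.range l.length ++ w.map (· + l.length)) hlen hTT
      rw [sel_both, ← huv] at h1
      rw [h1, hl, sel_both, sel_of_forall₂ D' _ _ hw2]
    have e2 : T (l ++ u) = T (l' ++ u') := by
      have h1 := hT.ft (l ++ D) (l' ++ D')
        (List.range l.length ++ (w.take u'.length).map (· + l.length)) hlen hTT
      rw [sel_both, ← hu] at h1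
      rw [h1, hl, sel_both, sel_of_forall₂ D' _ _ hu2]
    obtain ⟨n, hn⟩ := exists_bound (l ++ u)
    have hMn : Miss n 0 (l ++ u) := by
      intro y hy
      exact absurd (hn _ hy) (lt_irrefl _)
    have e3 := hT.ext (l ++ u) (l' ++ u') n 0 i m a (by
      rw [List.length_append, List.length_append, hl, hul]) e2 ha1 ha3 hMn hM
    have hu0 : u ≠ [] := by
      intro h
      rw [h] at hul
      exact hu' (List.length_eq_zero_iff.1 hul.symm)
    have hv0 : v ≠ [] := by
      intro h
      rw [h] at hvl
      exact hv' (List.length_eq_zero_iff.1 hvl.symm)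
    refine hLk u v hu0 hv0 huvD ⟨hv0, a, n, 0, ha1, by rw [hvl, ha2], ha3, hMn, ?_⟩
    rw [e3, ← hE, List.append_assoc, List.append_assoc, e1]
  · intro l l1 D hLk u v hu hv hperm hG
    obtain ⟨_, a, i, m, ha1, ha2, ha3, hM, hE⟩ := hG
    have hM2 : Miss i m (l ++ u) := by
      intro y hy
      refine hM y ?_
      rcases List.mem_append.1 hy with h | h
      · exact List.mem_append.2 (Or.inl (List.mem_append.2 (Or.inl h)))
      · exact List.mem_append.2 (Or.inr h)
    refine hLk u v hu hv hperm ⟨hv, a, i, m, ha1, ha2, ha3, hM2, ?_⟩
    have hlp : (prt i m a : List (Idx kx k)).length = v.length := by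
      unfold prt
      rw [List.length_map, ha2]
    have key : ∀ x : List (Idx kx k), x.length = v.length →
        sel (l ++ l1 ++ u ++ x) (List.range l.length ++
          (List.range (u.length + v.length)).map (· + (l ++ l1).length)) = l ++ u ++ x := by
      intro x hx
      rw [sel_append_right, List.append_assoc (l ++ l1), sel_shift]
      have h1 : sel (l ++ l1 ++ (u ++ x)) (List.range l.length) = l := by
        rw [List.append_assoc l l1, sel_left _ _ _ fun i hi => List.mem_range.1 hi, sel_range]
      rw [h1, ← hx, ← List.length_append, sel_range, List.append_assoc]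
    have h2 := hT.ft (l ++ l1 ++ u ++ v) (l ++ l1 ++ u ++ prt i m a)
      (List.range l.length ++ (List.range (u.length + v.length)).map (· + (l ++ l1).length))
      (by simp only [List.length_append, hlp]) hE
    rwa [key v rfl, key _ hlp] at h2

end Pool.Agent.H26.FK
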